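import Pool.Agent.Helper89.Vol4.Goals

/-! # MP_cd13d2_co, packet V47-UNI4: the maximiser is unique, and its equation -/

set_option autoImplicit false

namespace Pool.Agent.Helper2.Vol4.PkUNI4

open Set Pool.Agent.Helper89.Vol4

/-- the polynomial -/
def p (N : ℝ) : ℝ :=
  64 * N ^ 6 + 96 * N ^ 5 - 48 * N ^ 4 - 100 * N ^ 3 + 3 * N ^ 2 + 18 * N - 3

theorem p_lt {M N : ℝ} (hM : 0 ≤ M) (hMN : M < N) (hN : N ≤ 0.2241) : p M < p N := by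
  have hN0 : 0 ≤ N := hM.trans hMN.le
  have hM1 : M ≤ 0.2241 := hMN.le.trans hN
  have e : p N - p M = (N - M) * (64 * (N ^ 5 + N ^ 4 * M + N ^ 3 * M ^ 2 + N ^ 2 * M ^ 3 + N * M ^ 4 + M ^ 5)
      + 96 * (N ^ 4 + N ^ 3 * M + N ^ 2 * M ^ 2 + N * M ^ 3 + M ^ 4)
      - 48 * (N ^ 3 + N ^ 2 * M + N * M ^ 2 + M ^ 3) - 100 * (N ^ 2 + N * M + M ^ 2)
      + 3 * (N + M) + 18) := by
    unfold p
    ring
  have h5 : 0 ≤ 64 * (N ^ 5 + N ^ 4 * M + N ^ 3 * M ^ 2 + N ^ 2 * M ^ 3 + N * M ^ 4 + M ^ 5) := by positivity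
  have h4 : 0 ≤ 96 * (N ^ 4 + N ^ 3 * M + N ^ 2 * M ^ 2 + N * M ^ 3 + M ^ 4) := by positivity
  have n2 : N ^ 2 ≤ 0.2241 * N := by nlinarith
  have m2 : M ^ 2 ≤ 0.2241 * M := by nlinarith
  have nm : N * M ≤ 0.2241 * ((N + M) / 2) := by nlinarith
  have n3 : N ^ 3 ≤ 0.2241 ^ 2 * N := by nlinarith
  have m3 : M ^ 3 ≤ 0.2241 ^ 2 * M := by nlinarith
  have nm2 : N * M ^ 2 ≤ 0.2241 ^ 2 * N := by nlinarith [mul_nonneg hN0 hM]
  have n2m : N ^ 2 * M ≤ 0.2241 ^ 2 * M := by nlinarith [mul_nonneg hN0 hM]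
  have h6 : 0 < 64 * (N ^ 5 + N ^ 4 * M + N ^ 3 * M ^ 2 + N ^ 2 * M ^ 3 + N * M ^ 4 + M ^ 5)
      + 96 * (N ^ 4 + N ^ 3 * M + N ^ 2 * M ^ 2 + N * M ^ 3 + M ^ 4)
      - 48 * (N ^ 3 + N ^ 2 * M + N * M ^ 2 + M ^ 3) - 100 * (N ^ 2 + N * M + M ^ 2)
      + 3 * (N + M) + 18 := by
    linarith
  nlinarith [mul_pos (sub_pos.2 hMN) h6]

theorem p_neg : p 0.224 < 0 := by
  unfold p
  norm_num

theorem p_pos {N : ℝ} (h1 : 0.2241 ≤ N) (h2 : 0 ≤ 2 - 6 * N - 8 * N ^ 2) : 0 < p N := by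
  have h3 : N ≤ 0.25 := by nlinarith
  obtain ⟨s, rfl⟩ : ∃ s, N = 0.2241 + s := ⟨N - 0.2241, by ring⟩
  have hs : 0 ≤ s := by linarith
  have hs2 : s ≤ 0.0259 := by linarith
  unfold p
  have e2 : s ^ 2 ≤ 0.0259 * s := by nlinarith
  have e3 : 0 ≤ s ^ 3 := by positivity
  have e3' : s ^ 3 ≤ 0.0259 ^ 2 * s := by nlinarith
  have e4 : 0 ≤ s ^ 4 := by positivity
  have e5 : 0 ≤ s ^ 5 := by positivity
  have e6 : 0 ≤ s ^ 6 := by positivity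
  ring_nf
  nlinarith

theorem crit {N : ℝ} (h0 : 0 < N) (h1 : N < 3 / 10)
    (hm : ∀ M ∈ Icc (0 : ℝ) (3 / 10), f4 M ≤ f4 N) :
    0 ≤ 2 - 6 * N - 8 * N ^ 2 ∧ p N = 0 := by
  have hA0 : 0 < 3 / 4 - N ^ 2 := by nlinarith
  have hB0 : 0 < 3 - (1 + 2 * N) ^ 2 := by nlinarith
  have hd1 : HasDerivAt (fun x : ℝ => √(3 / 4 - x ^ 2)) (-(2 * N) / (2 * √(3 / 4 - N ^ 2))) N := by
    have h : HasDerivAt (fun x : ℝ => 3 / 4 - x ^ 2) (-(2 * N)) N := by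
      have h1 := (hasDerivAt_pow 2 N).const_sub (3 / 4)
      simpa using h1
    exact h.sqrt hA0.ne'
  have hd2 : HasDerivAt (fun x : ℝ => √(3 - (1 + 2 * x) ^ 2))
      (-(4 * (1 + 2 * N)) / (2 * √(3 - (1 + 2 * N) ^ 2))) N := by
    have h : HasDerivAt (fun x : ℝ => 3 - (1 + 2 * x) ^ 2) (-(4 * (1 + 2 * N))) N := by
      have h1 : HasDerivAt (fun x : ℝ => 1 + 2 * x) 2 N := by
        simpa using ((hasDerivAt_id N).const_mul 2).const_add 1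
      have h2 : HasDerivAt (fun x : ℝ => (1 + 2 * x) ^ 2) (2 * (1 + 2 * N) * 2) N := by
        simpa using h1.fun_pow 2
      have h3 := h2.const_sub 3
      rw [show (-(4 * (1 + 2 * N)) : ℝ) = -(2 * (1 + 2 * N) * 2) by ring]
      exact h3
    exact h.sqrt hB0.ne'
  have hd : HasDerivAt f4 (-(2 * N) / (2 * √(3 / 4 - N ^ 2)) + (1 * √(3 - (1 + 2 * N) ^ 2) +
      N * (-(4 * (1 + 2 * N)) / (2 * √(3 - (1 + 2 * N) ^ 2))))) N :=
    hd1.add ((hasDerivAt_id N).mul hd2)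
  have hloc : IsLocalMax f4 N := by
    filter_upwards [Icc_mem_nhds h0 h1] with M hM
    exact hm M hM
  have hz := hloc.hasDerivAt_eq_zero hd
  obtain ⟨A, hA⟩ : ∃ A, A = √(3 / 4 - N ^ 2) := ⟨_, rfl⟩
  obtain ⟨B, hB⟩ : ∃ B, B = √(3 - (1 + 2 * N) ^ 2) := ⟨_, rfl⟩
  rw [← hA, ← hB] at hz
  have hAp : 0 < A := by rw [hA]; exact Real.sqrt_pos.2 hA0
  have hBp : 0 < B := by rw [hB]; exact Real.sqrt_pos.2 hB0
  have hA2 : A ^ 2 = 3 / 4 - N ^ 2 := by rw [hA]; exact Real.sq_sqrt hA0.le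
  have hB2 : B ^ 2 = 3 - (1 + 2 * N) ^ 2 := by rw [hB]; exact Real.sq_sqrt hB0.le
  have key : A * (2 - 6 * N - 8 * N ^ 2) = N * B := by
    field_simp at hz
    nlinarith
  have hpos : 0 ≤ 2 - 6 * N - 8 * N ^ 2 := by
    by_contra h
    push Not at h
    have : A * (2 - 6 * N - 8 * N ^ 2) < 0 := mul_neg_of_pos_of_neg hAp h
    rw [key] at this
    linarith [mul_pos h0 hBp]
  refine ⟨hpos, ?_⟩
  have h3 : A ^ 2 * (2 - 6 * N - 8 * N ^ 2) ^ 2 = N ^ 2 * B ^ 2 := by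
    rw [← mul_pow, key, mul_pow]
  rw [hA2, hB2] at h3
  unfold p
  linear_combination (-1) * h3

theorem f2 : 1.04 < f4 (2 / 10) := by
  unfold f4
  have h1 : (0.842 : ℝ) ≤ √(3 / 4 - (2 / 10) ^ 2) := Real.le_sqrt_of_sq_le (by norm_num)
  have h2 : (1.019 : ℝ) ≤ √(3 - (1 + 2 * (2 / 10)) ^ 2) := Real.le_sqrt_of_sq_le (by norm_num)
  linarith

theorem f0 : f4 0 ≤ 1 := by
  unfold f4
  rw [zero_mul, add_zero]
  exact Real.sqrt_le_one.2 (by norm_num)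

theorem fh : f4 (3 / 10) ≤ 1.02 := by
  unfold f4
  have h1 : √(3 / 4 - (3 / 10 : ℝ) ^ 2) ≤ 0.813 :=
    Real.sqrt_le_iff.2 ⟨by norm_num, by norm_num⟩
  have h2 : √(3 - (1 + 2 * (3 / 10 : ℝ)) ^ 2) ≤ 0.664 :=
    Real.sqrt_le_iff.2 ⟨by norm_num, by norm_num⟩
  linarith

theorem loc {N : ℝ} (hN : N ∈ Icc (0 : ℝ) (3 / 10)) (hm : ∀ M ∈ Icc (0 : ℝ) (3 / 10), f4 M ≤ f4 N) :
    p N = 0 ∧ 0.224 < N ∧ N < 0.2241 := by
  have h1 : 1.04 < f4 N := f2.trans_le (hm _ ⟨by norm_num, by norm_num⟩)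
  have h0 : 0 < N := by
    rcases hN.1.lt_or_eq with h | h
    · exact h
    · rw [← h] at h1
      linarith [f0]
  have h2 : N < 3 / 10 := by
    rcases hN.2.lt_or_eq with h | h
    · exact h
    · rw [h] at h1
      linarith [fh]
  obtain ⟨h3, h4⟩ := crit h0 h2 hm
  refine ⟨h4, ?_, ?_⟩
  · by_contra h
    push Not at h
    rcases h.lt_or_eq with h5 | h5
    · have := p_lt h0.le h5 (by norm_num)
      linarith [p_neg]
    · rw [h5] at h4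
      linarith [p_neg]
  · by_contra h
    push Not at h
    linarith [p_pos h h3]

theorem thm : G_UNI4 := by
  intro N hN hm
  obtain ⟨h1, h2, h3⟩ := loc hN hm
  refine ⟨fun M hM he => ?_, h1, h2, h3⟩
  obtain ⟨k1, k2, k3⟩ := loc hM (fun K hK => he ▸ hm K hK)
  rcases lt_trichotomy M N with h | h | h
  · have := p_lt (by linarith : 0 ≤ M) h h3.le
    linarith
  · exact h
  · have := p_lt (by linarith : 0 ≤ N) h k3.le
    linarith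

end Pool.Agent.Helper2.Vol4.PkUNI4
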